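import Mathlib

set_option autoImplicit false

open Polynomial Matrix

namespace Pool.Agent.Results.MP_492578_lc.NotFP

/-- Real combinations of words over `G`, with concatenation extended bilinearly. -/
abbrev FA (G : Type) : Type := MonoidAlgebra ℝ (FreeMonoid G)

/-- Total mass. -/
noncomputable def mass {G : Type} : FA G →ₐ[ℝ] ℝ := MonoidAlgebra.lift ℝ ℝ (FreeMonoid G) 1

lemma mass_apply {G : Type} (x : FA G) : mass x = x.coeff.sum fun _ r => r := by
  simp [mass, MonoidAlgebra.lift_apply]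

/-- The monoid of finitely supported probability distributions on words over `G`. -/
def D (G : Type) : Submonoid (FA G) where
  carrier := {x | (∀ w, 0 ≤ x.coeff w) ∧ (x.coeff.sum fun _ r => r) = 1}
  mul_mem' := by
    classical
    rintro x y ⟨hx, sx⟩ ⟨hy, sy⟩
    refine ⟨fun w => ?_, ?_⟩
    · rw [MonoidAlgebra.coeff_mul]
      refine Finset.sum_nonneg fun a _ => Finset.sum_nonneg fun b _ => ?_
      have := mul_nonneg (hx a) (hy b)
      dsimp only
      split_ifs
      · exact this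
      · exact le_rfl
    · rw [← mass_apply] at sx sy ⊢
      rw [map_mul, sx, sy, one_mul]
  one_mem' := by
    classical
    refine ⟨fun w => ?_, ?_⟩
    · rw [MonoidAlgebra.one_def, MonoidAlgebra.coeff_single, Finsupp.single_apply]
      split_ifs <;> norm_num
    · rw [← mass_apply, map_one]

lemma mem_D {G : Type} {x : FA G} : x ∈ D G ↔ (∀ w, 0 ≤ x.coeff w) ∧ mass x = 1 := by
  rw [mass_apply]; rfl

/-- The convex combination `r x + (1 - r) y`. -/
noncomputable def mix {G : Type} (r : unitInterval) (x y : D G) : D G :=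
  ⟨(r : ℝ) • x.1 + (1 - (r : ℝ)) • y.1, mem_D.2 ⟨fun w => by
    have h1 := mul_nonneg r.2.1 ((mem_D.1 x.2).1 w)
    have h2 := mul_nonneg (sub_nonneg.2 r.2.2) ((mem_D.1 y.2).1 w)
    simpa using add_nonneg h1 h2, by
    simp [(mem_D.1 x.2).2, (mem_D.1 y.2).2]⟩⟩

/-- The congruence of convex monoids generated by `R`. -/
def gen {G : Type} (R : Set (D G × D G)) (x y : D G) : Prop :=
  ∀ c : Con (D G), (∀ r x x' y y', c x x' → c y y' → c (mix r x y) (mix r x' y')) →
    (∀ p ∈ R, c p.1 p.2) → c x y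

/-- Affine extension of a language. -/
noncomputable def ext {S : Type} (L : FreeMonoid S → ℝ) (x : FA S) : ℝ :=
  x.coeff.sum fun w r => r * L w

/-- The syntactic congruence. -/
def Syn {S : Type} (L : FreeMonoid S → ℝ) (x y : D S) : Prop :=
  ∀ u v : FreeMonoid S, ext L (.single u 1 * x.1 * .single v 1)
    = ext L (.single u 1 * y.1 * .single v 1)

/-- `L` is computed by a PFA. -/
def PFA {S : Type} (L : FreeMonoid S → ℝ) : Prop :=
  ∃ (n : ℕ) (i : Fin n → ℝ) (δ : S → Matrix (Fin n) (Fin n) ℝ) (o : Fin n → ℝ),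
    i ∈ stdSimplex ℝ (Fin n) ∧ (∀ a q, δ a q ∈ stdSimplex ℝ (Fin n)) ∧
    (∀ q, o q ∈ Set.Icc (0 : ℝ) 1) ∧ ∀ w, L w = i ⬝ᵥ (FreeMonoid.lift δ w *ᵥ o)

/-- The syntactic convex monoid of `L` is finitely presentable. -/
def FP {S : Type} (L : FreeMonoid S → ℝ) : Prop :=
  ∃ (G : Type) (_ : Finite G) (R : Set (D G × D G)) (φ : D G → D S), R.Finite ∧
    (∀ x y, gen R x y ↔ Syn L (φ x) (φ y)) ∧ (∀ b, ∃ x, Syn L (φ x) b) ∧ Syn L (φ 1) 1 ∧
    (∀ x y, Syn L (φ (x * y)) (φ x * φ y)) ∧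
    ∀ r x y, Syn L (φ (mix r x y)) (mix r (φ x) (φ y))

noncomputable def wd {G : Type} (w : FreeMonoid G) : D G :=
  ⟨.single w 1, mem_D.2 ⟨fun u => by
    classical
    rw [MonoidAlgebra.coeff_single, Finsupp.single_apply]; split_ifs <;> norm_num, by simp [mass]⟩⟩

lemma wd_mul {G : Type} (u v : FreeMonoid G) : wd (u * v) = wd u * wd v :=
  Subtype.ext (by simp [wd, MonoidAlgebra.single_mul_single])

lemma wd_one {G : Type} : wd (1 : FreeMonoid G) = 1 := Subtype.ext rfl

/-- Induction over distributions. -/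
lemma D_ind {G : Type} (p : D G → Prop) (h0 : ∀ w, p (wd w))
    (h1 : ∀ r x y, p x → p y → p (mix r x y)) (x : D G) : p x := by
  classical
  induction' hn : x.1.coeff.support.card using Nat.strong_induction_on with n ih generalizing x
  obtain ⟨hx, sx⟩ := mem_D.1 x.2
  have hne : x.1.coeff.support.Nonempty := by
    rw [Finsupp.support_nonempty_iff]
    intro h
    rw [mass_apply, h] at sx
    simp at sx
  obtain ⟨w, hw⟩ := hne
  set r := x.1.coeff w with hr
  set z : FA G := x.1 - .single w r with hz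
  have zc : ∀ u, z.coeff u = if u = w then 0 else x.1.coeff u := by
    intro u
    rw [hz, MonoidAlgebra.coeff_sub, Finsupp.sub_apply, MonoidAlgebra.coeff_single, Finsupp.single_apply]
    by_cases h : u = w
    · simp [h, hr]
    · simp [h, Ne.symm h]
  have zn : ∀ u, 0 ≤ z.coeff u := fun u => by rw [zc]; split_ifs; exacts [le_rfl, hx u]
  have zm : mass z = 1 - r := by rw [hz, map_sub, sx]; simp [mass]
  have r1 : r ≤ 1 := by
    have : 0 ≤ mass z := by rw [mass_apply]; exact Finset.sum_nonneg fun u _ => zn u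
    linarith
  rcases r1.eq_or_lt with h | h
  · have z0 : z = 0 := by
      have : mass z = 0 := by rw [zm, h, sub_self]
      rw [mass_apply, Finsupp.sum, Finset.sum_eq_zero_iff_of_nonneg fun u _ => zn u] at this
      ext u
      by_contra hc
      exact hc (this u (Finsupp.mem_support_iff.2 hc))
    have : x = wd w := Subtype.ext (by rw [hz, sub_eq_zero, h] at z0; exact z0)
    rw [this]; exact h0 w
  · have hp : 0 < 1 - r := sub_pos.2 h
    let y : D G := ⟨(1 - r)⁻¹ • z, mem_D.2 ⟨fun u => by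
      simpa using mul_nonneg (inv_nonneg.2 hp.le) (zn u), by
      rw [map_smul, zm, smul_eq_mul, inv_mul_cancel₀ hp.ne']⟩⟩
    have e : x = mix ⟨r, hx w, r1⟩ (wd w) y := Subtype.ext (by
      simp only [mix, wd, y, smul_smul, mul_inv_cancel₀ hp.ne', one_smul, hz]
      simp)
    rw [e]
    refine h1 _ _ _ (h0 w) (ih _ ?_ y rfl)
    rw [← hn]
    refine Finset.card_lt_card ⟨fun u hu => ?_, fun hs => ?_⟩
    · rw [Finsupp.mem_support_iff] at hu ⊢
      intro h0
      apply hu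
      simp only [y, MonoidAlgebra.coeff_smul_apply, zc, h0]
      simp
    · have := Finsupp.mem_support_iff.1 (hs hw)
      apply this
      simp only [y, MonoidAlgebra.coeff_smul_apply, zc]
      simp

/-- Probability generating polynomials. -/
def PP (p : ℝ[X]) : Prop := (∀ n, 0 ≤ p.coeff n) ∧ p.eval 1 = 1

lemma PP.mul {p q : ℝ[X]} (hp : PP p) (hq : PP q) : PP (p * q) :=
  ⟨fun n => by
    rw [coeff_mul]; exact Finset.sum_nonneg fun a _ => mul_nonneg (hp.1 _) (hq.1 _),
    by rw [eval_mul, hp.2, hq.2, one_mul]⟩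

lemma PP.pow (n : ℕ) : PP (X ^ n) :=
  ⟨fun m => by rw [coeff_X_pow]; split_ifs <;> norm_num, by simp⟩

lemma PP.map {G : Type} (F : FA G →ₐ[ℝ] ℝ[X]) (hF : ∀ g, PP (F (wd (FreeMonoid.of g)).1))
    (x : D G) : PP (F x.1) := by
  refine D_ind (fun x => PP (F x.1)) (fun w => ?_) (fun r x y hx hy => ?_) x
  · induction w using FreeMonoid.inductionOn' with
    | one => rw [wd_one]; simpa using PP.pow 0
    | of_mul g w ih => rw [wd_mul]; simpa using (hF g).mul ih
  · refine ⟨fun n => ?_, ?_⟩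
    · have h1 := mul_nonneg r.2.1 (hx.1 n)
      have h2 := mul_nonneg (sub_nonneg.2 r.2.2) (hy.1 n)
      simpa [mix] using add_nonneg h1 h2
    · simp [mix, hx.2, hy.2]

lemma PP.ex {p : ℝ[X]} (hp : PP p) : ∃ n, p.coeff n ≠ 0 := by
  by_contra h
  push Not at h
  have : p = 0 := Polynomial.ext h
  have h2 := hp.2
  simp [this] at h2

lemma PP.single {p : ℝ[X]} (hp : PP p) {n : ℕ} (h : ∀ m, p.coeff m ≠ 0 → m = n) : p = X ^ n := by
  have e : p = C (p.coeff n) * X ^ n := by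
    ext m
    rw [coeff_C_mul, coeff_X_pow]
    split_ifs with hm
    · simp [hm]
    · by_contra hc
      exact hm (h m (by simpa using hc))
  have h2 := hp.2
  rw [e] at h2
  simp only [eval_mul, eval_C, eval_pow, eval_X, one_pow, mul_one] at h2
  rw [e, h2]; simp

lemma PP.extreme {p : ℝ[X]} (hp : PP p) {n : ℕ} (h1 : p.eval (1 / 2) = (1 / 2) ^ n)
    (h2 : p.eval (1 / 4) = (1 / 4) ^ n) : p = X ^ n := by
  refine hp.single fun m hm => ?_
  have h0 := hp.2
  rw [eval_eq_sum, Polynomial.sum] at h0 h1 h2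
  have q : ∀ m : ℕ, (1 / 4 : ℝ) ^ m = (1 / 2) ^ m * (1 / 2) ^ m := fun m => by
    rw [← mul_pow]; norm_num
  have : ∑ m ∈ p.support, p.coeff m * ((1 / 2 : ℝ) ^ m - (1 / 2) ^ n) ^ 2 = 0 := by
    have : ∀ m ∈ p.support, p.coeff m * ((1 / 2 : ℝ) ^ m - (1 / 2) ^ n) ^ 2
        = p.coeff m * (1 / 4) ^ m - 2 * (1 / 2) ^ n * (p.coeff m * (1 / 2) ^ m)
          + (1 / 4) ^ n * (p.coeff m * 1 ^ m) := fun m _ => by rw [q, q, one_pow]; ring
    rw [Finset.sum_congr rfl this, Finset.sum_add_distrib, Finset.sum_sub_distrib,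
      ← Finset.mul_sum, ← Finset.mul_sum, h0, h1, h2, q]
    ring
  rw [Finset.sum_eq_zero_iff_of_nonneg fun m _ => mul_nonneg (hp.1 m) (sq_nonneg _)] at this
  have h3 := (mul_eq_zero.1 (this m (mem_support_iff.2 hm))).resolve_left hm
  have h4 : (1 / 2 : ℝ) ^ m = (1 / 2) ^ n := by
    have := pow_eq_zero_iff (two_ne_zero) |>.1 h3
    linarith
  exact pow_right_injective₀ (by norm_num) (by norm_num) h4

/-- Exponents pairwise equal or at distance `k`. -/
def T (k : ℕ) (p : ℝ[X]) : Prop :=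
  ∀ m n, p.coeff m ≠ 0 → p.coeff n ≠ 0 → m = n ∨ m = n + k ∨ n = m + k

lemma coeff_ne {p q : ℝ[X]} (hp : PP p) (hq : PP q) {m j : ℕ} (hm : p.coeff m ≠ 0)
    (hj : q.coeff j ≠ 0) : (p * q).coeff (m + j) ≠ 0 := by
  rw [coeff_mul]
  refine (Finset.sum_pos' (fun a _ => mul_nonneg (hp.1 _) (hq.1 _)) ⟨(m, j), by simp, ?_⟩).ne'
  exact mul_pos ((hp.1 m).lt_of_ne' hm) ((hq.1 j).lt_of_ne' hj)

lemma T.left {k : ℕ} {p q : ℝ[X]} (hp : PP p) (hq : PP q) (h : T k (p * q)) : T k p := by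
  obtain ⟨j, hj⟩ := hq.ex
  intro m n hm hn
  have := h _ _ (coeff_ne hp hq hm hj) (coeff_ne hp hq hn hj)
  omega

lemma T.mixl {k : ℕ} {p q : ℝ[X]} (hp : PP p) (hq : PP q) {r s : ℝ} (hr : 0 < r) (hs : 0 ≤ s)
    (h : T k (r • p + s • q)) : T k p := by
  have : ∀ m, p.coeff m ≠ 0 → (r • p + s • q).coeff m ≠ 0 := fun m hm => by
    have h1 := mul_pos hr ((hp.1 m).lt_of_ne' hm)
    have h2 := mul_nonneg hs (hq.1 m)
    simp only [coeff_add, coeff_smul, smul_eq_mul]
    linarith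
  exact fun m n hm hn => h m n (this m hm) (this n hn)

/-- Same values at `1/2` and `1/4`. -/
def E (p q : ℝ[X]) : Prop := p.eval (1 / 2) = q.eval (1 / 2) ∧ p.eval (1 / 4) = q.eval (1 / 4)

noncomputable def L (w : FreeMonoid Unit) : ℝ := ((1 / 2) ^ w.length + (1 / 4) ^ w.length) / 2

noncomputable def ι : FA Unit →ₐ[ℝ] ℝ[X] :=
  MonoidAlgebra.lift ℝ ℝ[X] (FreeMonoid Unit) (FreeMonoid.lift fun _ => X)

lemma ι_single (w : FreeMonoid Unit) : ι (.single w 1) = X ^ w.length := by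
  simp only [ι, MonoidAlgebra.lift_single, one_smul]
  induction w using FreeMonoid.inductionOn' with
  | one => simp
  | of_mul g w ih => simp [ih, pow_add]

lemma ext_L (x : FA Unit) : ext L x = ((ι x).eval (1 / 2) + (ι x).eval (1 / 4)) / 2 := by
  induction x using MonoidAlgebra.induction_linear with
  | zero => simp [ext]
  | add x y hx hy =>
    have : ext L (x + y) = ext L x + ext L y := by
      simp only [ext, MonoidAlgebra.coeff_add]
      exact Finsupp.sum_add_index' (by simp) (by intros; ring)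
    rw [this, hx, hy]; simp; ring
  | single w r =>
    have : (MonoidAlgebra.single w r : FA Unit) = r • .single w 1 := by simp
    rw [this, map_smul, ι_single]
    simp [ext, L]; ring

lemma syn_iff (x y : D Unit) : Syn L x y ↔ E (ι x.1) (ι y.1) := by
  constructor
  · intro h
    have h1 := h 1 1
    have h2 := h (FreeMonoid.of ()) 1
    simp only [ext_L, map_mul, ι_single, eval_mul, eval_pow, eval_X, FreeMonoid.length_one,
      FreeMonoid.length_of] at h1 h2
    constructor <;> linarith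
  · intro h u v
    simp only [ext_L, map_mul, eval_mul, h.1, h.2]

lemma pfa : PFA L := by
  refine ⟨3, ![1 / 2, 1 / 2, 0], fun _ => !![1 / 2, 0, 1 / 2; 0, 1 / 4, 3 / 4; 0, 0, 1],
    ![1, 1, 0], ⟨fun q => ?_, ?_⟩, fun _ q => ⟨fun j => ?_, ?_⟩, fun q => ?_, fun w => ?_⟩
  · fin_cases q <;> simp
  · simp [Fin.sum_univ_three]; norm_num
  · fin_cases q <;> fin_cases j <;> simp <;> norm_num
  · fin_cases q <;> simp [Fin.sum_univ_three] <;> norm_num
  · fin_cases q <;> simp
  · have : FreeMonoid.lift (fun _ : Unit => !![(1 / 2 : ℝ), 0, 1 / 2; 0, 1 / 4, 3 / 4; 0, 0, 1]) w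
        *ᵥ ![1, 1, 0] = ![(1 / 2) ^ w.length, (1 / 4) ^ w.length, 0] := by
      induction w using FreeMonoid.inductionOn' with
      | one => simp
      | of_mul g w ih =>
        rw [map_mul, ← mulVec_mulVec, ih]
        ext j
        fin_cases j <;> simp [mulVec, dotProduct, Fin.sum_univ_three, pow_add]
    rw [this]
    simp [L, dotProduct, Fin.sum_univ_three]
    ring

theorem result : ∃ L : FreeMonoid Unit → ℝ, PFA L ∧ ¬ FP L := by
  refine ⟨L, pfa, ?_⟩
  rintro ⟨G, -, R, φ, hR, hgen, hsur, hone, hmul, hmix⟩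
  simp only [syn_iff] at hgen hsur hone hmul hmix
  have hι : ∀ x : D Unit, PP (ι x.1) :=
    PP.map ι fun g => by rw [wd, ι_single]; exact PP.pow _
  let Ψ : FA G →ₐ[ℝ] ℝ[X] := MonoidAlgebra.lift ℝ ℝ[X] (FreeMonoid G)
    (FreeMonoid.lift fun g => ι (φ (wd (FreeMonoid.of g))).1)
  have Ψg : ∀ g, Ψ (wd (FreeMonoid.of g)).1 = ι (φ (wd (FreeMonoid.of g))).1 := fun g => by
    simp [Ψ, wd]
  have hΨ : ∀ x : D G, PP (Ψ x.1) := PP.map Ψ fun g => by rw [Ψg]; exact hι _
  have hE : ∀ x : D G, E (Ψ x.1) (ι (φ x).1) := by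
    refine D_ind _ (fun w => ?_) (fun r x y hx hy => ?_)
    · induction w using FreeMonoid.inductionOn' with
      | one =>
        rw [wd_one]
        exact ⟨by simpa using hone.1.symm, by simpa using hone.2.symm⟩
      | of_mul g w ih =>
        rw [wd_mul]
        have := hmul (wd (FreeMonoid.of g)) (wd w)
        refine ⟨?_, ?_⟩
        · rw [this.1]; simp only [Submonoid.coe_mul, map_mul, eval_mul, Ψg, ih.1]
        · rw [this.2]; simp only [Submonoid.coe_mul, map_mul, eval_mul, Ψg, ih.2]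
    · have := hmix r x y
      refine ⟨?_, ?_⟩
      · rw [this.1]; simp only [mix, map_add, map_smul, eval_add, eval_smul, hx.1, hy.1]
      · rw [this.2]; simp only [mix, map_add, map_smul, eval_add, eval_smul, hx.2, hy.2]
  have hgen' : ∀ x y, gen R x y ↔ E (Ψ x.1) (Ψ y.1) := fun x y => by
    rw [hgen, E, E, (hE x).1, (hE x).2, (hE y).1, (hE y).2]
  obtain ⟨w, hw⟩ := hsur (wd (FreeMonoid.of ()))
  have Ψw : Ψ w.1 = X := by
    have := (hΨ w).extreme (n := 1) (by rw [(hE w).1, hw.1, wd, ι_single]; simp)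
      (by rw [(hE w).2, hw.2, wd, ι_single]; simp)
    simpa using this
  obtain ⟨N, hN⟩ := (hR.image fun p => max (Ψ p.1.1).natDegree (Ψ p.2.1).natDegree).bddAbove
  obtain ⟨k, hk⟩ : ∃ k, k = N + 2 := ⟨_, rfl⟩
  let c : Con (D G) :=
    { r := fun x y => E (Ψ x.1) (Ψ y.1) ∧ (T k (Ψ x.1) ∨ T k (Ψ y.1) → Ψ x.1 = Ψ y.1)
      iseqv := ⟨fun x => ⟨⟨rfl, rfl⟩, fun _ => rfl⟩,
        fun h => ⟨⟨h.1.1.symm, h.1.2.symm⟩, fun t => (h.2 t.symm).symm⟩,
        fun h h' => ⟨⟨h.1.1.trans h'.1.1, h.1.2.trans h'.1.2⟩, fun t => by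
          rcases t with t | t
          · have e := h.2 (Or.inl t)
            exact e.trans (h'.2 (Or.inl (e ▸ t)))
          · have e := h'.2 (Or.inr t)
            exact (h.2 (Or.inr (e ▸ t))).trans e⟩⟩
      mul' := fun {x x' y y'} h h' => ⟨⟨by
          simp only [Submonoid.coe_mul, map_mul, eval_mul, h.1.1, h'.1.1], by
          simp only [Submonoid.coe_mul, map_mul, eval_mul, h.1.2, h'.1.2]⟩, fun t => by
        simp only [Submonoid.coe_mul, map_mul] at t ⊢
        rw [h.2 (t.imp (T.left (hΨ _) (hΨ _)) (T.left (hΨ _) (hΨ _))),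
          h'.2 (t.imp (fun t => T.left (hΨ _) (hΨ x) (mul_comm (Ψ x.1) _ ▸ t))
            (fun t => T.left (hΨ _) (hΨ x') (mul_comm (Ψ x'.1) _ ▸ t)))]⟩ }
  have cdef : ∀ x y, c x y ↔
      E (Ψ x.1) (Ψ y.1) ∧ (T k (Ψ x.1) ∨ T k (Ψ y.1) → Ψ x.1 = Ψ y.1) := fun _ _ => Iff.rfl
  have cmix : ∀ r x x' y y', c x x' → c y y' → c (mix r x y) (mix r x' y') := by
    intro r x x' y y' h h'
    rw [cdef] at h h' ⊢
    simp only [mix, map_add, map_smul]
    refine ⟨⟨by simp only [eval_add, eval_smul, h.1.1, h'.1.1],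
      by simp only [eval_add, eval_smul, h.1.2, h'.1.2]⟩, fun t => ?_⟩
    have r0 := r.2.1
    have r1 := sub_nonneg.2 r.2.2
    have e1 : (r : ℝ) • Ψ x.1 = (r : ℝ) • Ψ x'.1 := by
      rcases r0.eq_or_lt with h0 | h0
      · rw [← h0, zero_smul, zero_smul]
      · rw [h.2 (t.imp (T.mixl (hΨ _) (hΨ _) h0 r1) (T.mixl (hΨ _) (hΨ _) h0 r1))]
    have e2 : (1 - (r : ℝ)) • Ψ y.1 = (1 - (r : ℝ)) • Ψ y'.1 := by
      rcases r1.eq_or_lt with h0 | h0
      · rw [← h0, zero_smul, zero_smul]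
      · rw [h'.2 (t.imp (fun t => T.mixl (hΨ _) (hΨ x) h0 r0 (add_comm ((r : ℝ) • Ψ x.1) _ ▸ t))
          (fun t => T.mixl (hΨ _) (hΨ x') h0 r0 (add_comm ((r : ℝ) • Ψ x'.1) _ ▸ t)))]
    rw [e1, e2]
  have small : ∀ p q : ℝ[X], PP p → PP q → p.natDegree ≤ N → T k p → E p q → p = q := by
    intro p q hp hq hd t e
    obtain ⟨n, hn⟩ := hp.ex
    have e0 : p = X ^ n := hp.single fun m hm => by
      have := t m n hm hn
      have := le_natDegree_of_ne_zero hm
      have := le_natDegree_of_ne_zero hn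
      omega
    rw [e0, hq.extreme (n := n) (by rw [← e.1, e0]; simp) (by rw [← e.2, e0]; simp)]
  have cR : ∀ p ∈ R, c p.1 p.2 := by
    intro p hp
    have e := (hgen' p.1 p.2).1 fun c _ h => h p hp
    have hd : max (Ψ p.1.1).natDegree (Ψ p.2.1).natDegree ≤ N := hN ⟨p, hp, rfl⟩
    refine ⟨e, fun t => ?_⟩
    rcases t with t | t
    · exact small _ _ (hΨ _) (hΨ _) (le_of_max_le_left hd) t e
    · exact (small _ _ (hΨ _) (hΨ _) (le_of_max_le_right hd) t ⟨e.1.symm, e.2.symm⟩).symm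
  obtain ⟨a, ha⟩ : ∃ a : ℝ, a = (1 / 2) ^ k := ⟨_, rfl⟩
  have a0 : 0 < a := by rw [ha]; positivity
  have a1 : a ≤ 1 / 4 := by
    rw [ha, hk, pow_add]
    have : (1 / 2 : ℝ) ^ N ≤ 1 := pow_le_one₀ (by norm_num) (by norm_num)
    linarith
  have a2 : (1 / 4 : ℝ) ^ k = a ^ 2 := by rw [ha, ← pow_mul, mul_comm, pow_mul]; norm_num
  have d0 : 0 < 1 - a ^ 2 := by nlinarith
  have r0 : 0 < a * (1 / 2 - a) / (1 - a ^ 2) := div_pos (mul_pos a0 (by linarith)) d0
  let r : unitInterval := ⟨a * (1 / 2 - a) / (1 - a ^ 2), r0.le, by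
    rw [div_le_one d0]; nlinarith⟩
  let s : unitInterval := ⟨a * (2 - a) / (1 - a ^ 2), (div_pos (mul_pos a0 (by linarith)) d0).le,
    by rw [div_le_one d0]; nlinarith⟩
  have h := (hgen' (mix r 1 (w ^ k)) (mix s w (w ^ (k + 1)))).2 (by
    simp only [E, mix, map_add, map_smul, eval_add, eval_smul, SubmonoidClass.coe_pow, map_pow, Ψw,
      Submonoid.coe_one, map_one, eval_one, eval_pow, eval_X, smul_eq_mul, r, s]
    rw [pow_succ _ k, pow_succ _ k, ← ha, a2]
    constructor <;> field_simp <;> ring) c cmix cR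
  have h2 := ((cdef _ _).1 h).2 (Or.inl (by
    intro m n hm hn
    simp only [mix, map_add, map_smul, SubmonoidClass.coe_pow, map_pow, Ψw, Submonoid.coe_one,
      map_one, coeff_add, coeff_smul, coeff_X_pow, coeff_one] at hm hn
    have h1 : m = 0 ∨ m = k := by
      by_contra hc
      push Not at hc
      simp [hc.1, hc.2] at hm
    have h2 : n = 0 ∨ n = k := by
      by_contra hc
      push Not at hc
      simp [hc.1, hc.2] at hn
    omega))
  have h3 := congrArg (eval 0) h2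
  simp only [mix, map_add, map_smul, eval_add, eval_smul, SubmonoidClass.coe_pow, map_pow, Ψw,
    Submonoid.coe_one, map_one, eval_one, eval_pow, eval_X, smul_eq_mul, r, s, hk] at h3
  simp only [ne_eq, Nat.add_eq_zero_iff, OfNat.ofNat_ne_zero, and_false, not_false_eq_true,
    zero_pow, mul_zero, add_zero, mul_one, one_ne_zero] at h3
  exact r0.ne' h3

end Pool.Agent.Results.MP_492578_lc.NotFP
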